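import Pool.Agent.helper41.EX.Fin

/-!
# A power saving over the exponent `2/3` for the exceptional set of the inequality with `H`

For every real `e ≥ 0` (and even for every `e ≥ -1/2`) there is `δ > 0` such that for every
`C > 0` the number of admissible triples with `c ≤ X` that violate `c < C H(abc)^(1+e)` is
`O(X^(2/(3(1+e)) - δ))`. For `e = 0` : all but `O(X^(2/3 - δ))` admissible triples satisfy
`c < C H(abc)`.

The main new ingredient is `Pool.Agent.helper41.EX.SP`: a dense set of products of `k` primes from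
a short interval `(y0, y]`, with `k` between a small power of `y` and slightly less than the number
of primes, has large doubling. Its proof is a sum-product argument modulo an integer `w` which is
the difference of two products of primes, with a prime factor `r` of prescribed size.
-/

namespace Pool.Agent.Results.MP_14cf73_nt.ExceptionalSaving

open Finset

/-- The radical of `n`: the product of the distinct primes dividing `n`. -/
def rad (n : ℕ) : ℕ := ∏ p ∈ n.primeFactors, p

/-- `H n = rad n / (log (rad n)) ^ ω(n)`. -/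
noncomputable def H (n : ℕ) : ℝ := (rad n : ℝ) / Real.log (rad n) ^ n.primeFactors.card

/-- **Exceptional set, power saving.** -/
theorem result (e : ℝ) (he : -(1 / 2) ≤ e) : ∃ δ : ℝ, 0 < δ ∧ ∀ C : ℝ, 0 < C → ∃ K : ℝ,
    ∀ X : ℕ,
    ({t : ℕ × ℕ × ℕ | 0 < t.1 ∧ 0 < t.2.1 ∧ t.1 + t.2.1 = t.2.2 ∧
      Nat.gcd (Nat.gcd t.1 t.2.1) t.2.2 = 1 ∧ t.2.2 ≤ X ∧
      C * H (t.1 * t.2.1 * t.2.2) ^ (1 + e) ≤ (t.2.2 : ℝ)}.ncard : ℝ) ≤
    K * (X : ℝ) ^ (2 / (3 * (1 + e)) - δ) :=
  Pool.Agent.helper41.EX.final e he

end Pool.Agent.Results.MP_14cf73_nt.ExceptionalSaving
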