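import Pool.Agent.helper58.FF.LowerMain
import Pool.Agent.helper58.FF.Upper

/-!
# The analogue of the inequality `c < C H(abc)^(1+ε)` in `F_q[X]`

For every finite field `F` with `q` elements, with `|f| = q^(deg f)`, `rad f` the product of the
distinct monic irreducible divisors, `ω(f)` their number, and
`H_α(f) = |rad f| / (log |rad f|)^(α ω(f))` (`α = 1` is the analogue of `H`), the threshold of the
exponent `K` in `|c| ≤ C · H_α(abc)^K` is exactly `1/(1-α)`; for `α = 1` no exponent works.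
-/

open Polynomial

namespace Pool.Agent.Results.MP_14cf73_nt.FunctionField

open Pool.Agent.helper58.FF

theorem result (F : Type) [Field F] [Finite F] :
    -- (1) the analogue of Q1 (`α = 1`) fails, for every exponent
    (∀ K : ℝ, 0 < K → ∀ C : ℝ,
      {t : F[X] × F[X] × F[X] | t.1.Monic ∧ t.2.1.Monic ∧ t.2.2.Monic ∧
        IsCoprime t.1 t.2.1 ∧ t.1 + t.2.1 = t.2.2 ∧ derivative t.2.2 ≠ 0 ∧
        C * H 1 (t.1 * t.2.1 * t.2.2) ^ K < nrm t.2.2}.Infinite) ∧
    -- (2) for every `α ≥ 0` the same holds for all exponents `K` with `K (1 - α) < 1`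
    (∀ α K : ℝ, 0 ≤ α → 0 < K → K * (1 - α) < 1 → ∀ C : ℝ,
      {t : F[X] × F[X] × F[X] | t.1.Monic ∧ t.2.1.Monic ∧ t.2.2.Monic ∧
        IsCoprime t.1 t.2.1 ∧ t.1 + t.2.1 = t.2.2 ∧ derivative t.2.2 ≠ 0 ∧
        C * H α (t.1 * t.2.1 * t.2.2) ^ K < nrm t.2.2}.Infinite) ∧
    -- (3) and for `K (1 - α) > 1` the inequality holds for all triples covered by Mason-Stothers
    (∀ α K : ℝ, 0 ≤ α → 0 < K → 1 < K * (1 - α) →
      ∃ C : ℝ, ∀ a b c : F[X], a ≠ 0 → b ≠ 0 → c ≠ 0 → IsCoprime a b → a + b = c →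
        ¬ (derivative a = 0 ∧ derivative b = 0) →
        max (nrm a) (max (nrm b) (nrm c)) < C * H α (a * b * c) ^ K) := by
  refine ⟨fun K hK C => ?_, fun α K hα hK h C => lower hα hK h C,
    fun α K hα hK h => upper hα hK h⟩
  exact lower zero_le_one hK (by simp) C

end Pool.Agent.Results.MP_14cf73_nt.FunctionField
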