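import Mathlib
import Pool.Agent.helper81.OM.Final

/-!
# The constant `9/2` in the omega result for the abc-type inequality with `H`

`H n = rad n / (log (rad n)) ^ ω(n)`. For every `C ≤ 9/2` there are infinitely many admissible triples
`a + b = c` with `c > H exp (C log H / log log H)`.

The triples are `(x, y - x, y)` with `x`, `y` coprime products of primes of size about `log y` which are
extremely close. They come from a pigeonhole principle for the numbers `∏ p ^ e_p`, `0 ≤ e_p ≤ 4`, in which the
exponents `e_p` are weighted by weights depending on `p / log y`, and from averaging over the pairs in a class.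
-/

set_option autoImplicit false

namespace Pool.Agent.Results.MP_14cf73_nt.OmegaNineHalves

open Pool.Agent.helper81.OM

/-- **Omega result.** For every `C ≤ 9/2` there are infinitely many admissible triples
with `c > H exp (C log H / log log H)`, where `H = max (H (abc)) (e ^ e)`. -/
theorem result (C : ℝ) (hC : C ≤ 9 / 2) :
    {t : ℕ × ℕ × ℕ | 0 < t.1 ∧ 0 < t.2.1 ∧ t.1 + t.2.1 = t.2.2 ∧
      Nat.gcd (Nat.gcd t.1 t.2.1) t.2.2 = 1 ∧
      max (H (t.1 * t.2.1 * t.2.2)) (Real.exp (Real.exp 1)) *
        Real.exp (C * Real.log (max (H (t.1 * t.2.1 * t.2.2)) (Real.exp (Real.exp 1))) /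
          Real.log (Real.log (max (H (t.1 * t.2.1 * t.2.2)) (Real.exp (Real.exp 1))))) <
        (t.2.2 : ℝ)}.Infinite :=
  infinite_of_data data C (by linarith) dat_G

end Pool.Agent.Results.MP_14cf73_nt.OmegaNineHalves
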