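import Pool.Agent.helper69.AT.Final

/-!
# Reduction of Q1 to a thin set of triples

`rad n` is the radical, `H n = rad n / (log (rad n)) ^ ω(n)`. A triple `(a, b, c)` is admissible
(`Adm`) if `a, b > 0`, `a + b = c`, `gcd (a, b, c) = 1`.

For `n, N ≥ 1` and `δ > 0` let `Thin n N δ` be the set of the admissible triples for which `a` and
`c` are `n`-th powers, `N` divides `b`, `b ≤ δ c` and `rad (abc) ≤ c ^ (1 + δ)`.

* The number of members of `Thin n N δ` with `c ≤ X` is at most `X ^ (2/n)`.
* There is `m ≥ 1` such that for every `e` in `(0, 1]` the inequality with exponent `1 + e/m` on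
  `Thin n N δ` implies the inequality with exponent `1 + e` for all admissible triples.
* Q1 is equivalent to its restriction to `Thin n N δ`.

Proof. The triple `(a, b, c)` with `b < a` is sent to `(u ^ m, v ^ m - u ^ m, v ^ m)`, where `u/v` is
the reduced form of `(a - b)/c` and `m` is one of two even exponents: this makes one of the terms
divisible by a given number, prime by prime, and one of the first two terms relatively small. Then
the identity `4 (a² + ab + b²)³ = ((a - b)(a + 2b)(2a + b))² + 27 (abc)²` concentrates these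
conditions on the second term, and a second power map produces the powers and the bound for the
radical.
-/

set_option autoImplicit false

namespace Pool.Agent.Results.MP_14cf73_nt.ThinReduction

open Pool.Agent.helper69.AT

/-- **Reduction of Q1 to a thin set of triples.** -/
theorem result (n N : ℕ) (hn : 0 < n) (hN : 0 < N) (δ : ℝ) (hδ : 0 < δ) :
    (∀ X : ℕ, {t : ℕ × ℕ × ℕ | Thin n N δ t.1 t.2.1 t.2.2 ∧ t.2.2 ≤ X}.ncard ^ n ≤ X ^ 2) ∧
    (∃ m : ℕ, 0 < m ∧ ∀ e : ℝ, 0 < e → e ≤ 1 →
      (∃ C : ℝ, ∀ a b c : ℕ, Thin n N δ a b c → (c : ℝ) < C * H (a * b * c) ^ (1 + e / m)) →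
      ∃ C : ℝ, ∀ a b c : ℕ, Adm a b c → (c : ℝ) < C * H (a * b * c) ^ (1 + e)) ∧
    ((∀ e : ℝ, 0 < e → ∃ C : ℝ, ∀ a b c : ℕ, Thin n N δ a b c →
        (c : ℝ) < C * H (a * b * c) ^ (1 + e)) ↔
      ∀ e : ℝ, 0 < e → ∃ C : ℝ, ∀ a b c : ℕ, Adm a b c →
        (c : ℝ) < C * H (a * b * c) ^ (1 + e)) :=
  main n N hn hN δ hδ

end Pool.Agent.Results.MP_14cf73_nt.ThinReduction
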